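import Pool.Agent.SPO.Cover
import Pool.Agent.SPO.RepList
import Pool.Agent.SPO.Ord

/-!
# Almost all odd numbers are squarefree numbers plus `C` distinct powers of two

`Pool.Agent.SPO.cover` (helper90): for `n` and all odd primes `q ≤ Z I` a proportion
`≥ (c/2^I)^(J+1)` of the exponent vectors `b` satisfies `4 s(b) ≠ n` modulo all `q`.
The exponents are made distinct by adding different multiples of a multiple of `M`.
A first moment over the squares `p^2`, `p > Z I`, dividing `n - σ(b)` finishes the proof.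
-/

set_option autoImplicit false

namespace Pool.Agent.SqfPow

open Finset Filter Pool.Agent.SPO

/-- From a list of exponents to a set of distinct exponents `≥ 1`. -/
private theorem distinct (L : List ℕ) (M : ℕ) (hM : 0 < M) :
    ∃ S : Finset ℕ, #S = L.length ∧ (∀ a ∈ S, 1 ≤ a) ∧
      ∀ q : ℕ, (2 : ZMod q) ^ M = 1 →
        ((∑ a ∈ S, 2 ^ a : ℕ) : ZMod q) = (((L.map (fun a => 2 ^ a)).sum : ℕ) : ZMod q) := by
  obtain ⟨E, hE⟩ : ∃ E : ℕ, ∀ a ∈ L, a < E := by
    refine ⟨L.sum + 1, fun a ha => Nat.lt_succ_of_le (List.single_le_sum ?_ a ha)⟩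
    intro x _
    exact Nat.zero_le x
  have hlt : ∀ i : Fin L.length, L.get i < M * (E + 1) := fun i => by
    have h1 := hE _ (L.get_mem i)
    nlinarith
  have hinj : Function.Injective
      (fun i : Fin L.length => L.get i + M * (E + 1) * ((i : ℕ) + 1)) := by
    intro i j hij
    simp only at hij
    have h1 := hlt i
    have h2 := hlt j
    have h3 : (i : ℕ) + 1 = (j : ℕ) + 1 := by
      have e1 : (L.get i + M * (E + 1) * ((i : ℕ) + 1)) / (M * (E + 1)) = (i : ℕ) + 1 := by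
        rw [Nat.add_mul_div_left _ _ (by positivity), Nat.div_eq_of_lt h1, zero_add]
      have e2 : (L.get j + M * (E + 1) * ((j : ℕ) + 1)) / (M * (E + 1)) = (j : ℕ) + 1 := by
        rw [Nat.add_mul_div_left _ _ (by positivity), Nat.div_eq_of_lt h2, zero_add]
      rw [← e1, ← e2, hij]
    exact Fin.ext (by omega)
  refine ⟨univ.image (fun i : Fin L.length => L.get i + M * (E + 1) * ((i : ℕ) + 1)), ?_, ?_, ?_⟩
  · rw [card_image_of_injective _ hinj, card_univ, Fintype.card_fin]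
  · intro a ha
    obtain ⟨i, _, rfl⟩ := mem_image.1 ha
    have : 1 ≤ M * (E + 1) * ((i : ℕ) + 1) := by
      have h1 : 0 < M * (E + 1) * ((i : ℕ) + 1) := by positivity
      exact h1
    omega
  · intro q hq
    rw [sum_image fun i _ j _ h => hinj h, Nat.cast_sum]
    have h1 : ∀ i : Fin L.length,
        ((2 ^ (L.get i + M * (E + 1) * ((i : ℕ) + 1)) : ℕ) : ZMod q) =
          ((2 ^ L.get i : ℕ) : ZMod q) := by
      intro i
      push_cast
      rw [pow_add, mul_assoc, pow_mul, hq, one_pow, mul_one]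
    rw [sum_congr rfl fun i _ => h1 i, ← Nat.cast_sum]
    congr 1
    rw [← List.sum_ofFn]
    congr 1
    refine List.ext_get (by simp) fun n h1 h2 => ?_
    simp

/-- `n` has a representation: squarefree number without prime factors `≤ y` plus exactly `C`
distinct powers of `2` -/
def Rep (C y n : ℕ) : Prop :=
  ∃ (k : ℕ) (S : Finset ℕ), Squarefree k ∧ (∀ p : ℕ, p.Prime → p ∣ k → y < p) ∧ #S = C ∧
    n = k + ∑ a ∈ S, 2 ^ a

private theorem sum_inv_sq (z X : ℕ) (hz : 0 < z) :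
    ∑ p ∈ Ioc z X, (1 : ℝ) / (p : ℝ) ^ 2 ≤ 1 / z := by
  by_cases hX : z ≤ X
  · have : ∀ n : ℕ, z ≤ n → ∑ p ∈ Ioc z n, (1 : ℝ) / (p : ℝ) ^ 2 ≤ 1 / z - 1 / n := by
      intro n hn
      induction n, hn using Nat.le_induction with
      | base => simp
      | succ n hn ih =>
        rw [sum_Ioc_succ_top hn]
        have hn0 : (0 : ℝ) < n := by
          have : 0 < n := lt_of_lt_of_le hz hn
          exact_mod_cast this
        have h1 : (1 : ℝ) / ((n + 1 : ℕ) : ℝ) ^ 2 ≤ 1 / n - 1 / ((n + 1 : ℕ) : ℝ) := by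
          push_cast
          rw [div_sub_div _ _ (by positivity) (by positivity), div_le_div_iff₀ (by positivity)
            (by positivity)]
          nlinarith
        linarith
    have h1 := this X hX
    have h2 : (0 : ℝ) ≤ 1 / X := by positivity
    linarith
  · rw [Ioc_eq_empty (by omega)]
    simp

open Classical in
theorem main : ∃ C : ℕ, ∀ (y : ℕ) (ε : ℝ), 0 < ε → ∀ᶠ X : ℕ in atTop,
    (#{n ∈ Icc 1 X | Odd n ∧ ¬ Rep C y n} : ℝ) ≤ ε * X := by
  obtain ⟨J, l, k, hl, hcov⟩ := cover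
  obtain ⟨c, i₁, hc, hcov⟩ := hcov k le_rfl
  refine ⟨Ctot l J k, fun y ε hε => ?_⟩
  -- the choice of `I`
  obtain ⟨I, hI1, hIy, hI⟩ : ∃ I : ℕ, i₁ ≤ I ∧ y ≤ Z I ∧
      1 / ((c / 2 ^ I) ^ (J + 1) * (Z I : ℝ)) ≤ ε / 2 := by
    have h2 : Tendsto (fun i : ℕ => 2 ^ i) atTop (atTop : Filter ℕ) :=
      tendsto_atTop_mono (fun n => Nat.lt_two_pow_self.le) tendsto_id
    have h1 := (tendsto_pow_const_div_const_pow_of_one_lt (J + 1)
      (one_lt_two : (1 : ℝ) < 2)).comp h2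
    have h3 := h1.const_mul (2 ^ (J + 1) / c ^ (J + 1))
    rw [mul_zero] at h3
    have h4 := h3.eventually (gt_mem_nhds (half_pos hε))
    obtain ⟨i, hi1, hi2, hi3⟩ := (h4.and ((eventually_ge_atTop i₁).and
      (h2.eventually (eventually_ge_atTop y)))).exists
    refine ⟨i + 1, by omega, ?_, ?_⟩
    · rw [Z_succ]
      exact hi3.trans Nat.lt_two_pow_self.le
    · refine le_trans (le_of_eq ?_) hi1.le
      simp only [Function.comp_apply, Z_succ]
      push_cast
      rw [div_pow]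
      field_simp
      rw [pow_succ 2 i, mul_pow]
      ring
  set δ : ℝ := (c / 2 ^ I) ^ (J + 1) with hδ
  have hδ0 : 0 < δ := by positivity
  have hZ0 : 0 < Z I := Z_pos I
  -- the modulus
  obtain ⟨M, hMpos, hM⟩ : ∃ M : ℕ, 0 < M ∧ ∀ q ∈ prs Set.univ I, od q ∣ M := by
    refine ⟨∏ q ∈ prs Set.univ I, od q, prod_pos fun q hq => ?_, fun q hq => dvd_prod_of_mem _ hq⟩
    have h := (mem_prs.1 hq).2.1
    exact od_pos h.1 h.2
  have : NeZero M := ⟨hMpos.ne'⟩
  have hq1 : ∀ q ∈ prs Set.univ I, (2 : ZMod q) ^ M = 1 := fun q hq =>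
    orderOf_dvd_iff_pow_eq_one.1 (hM q hq)
  -- the sets of exponents
  have hS : ∀ b : Fin (J + 1) → Fin k → ZMod M, ∃ S : Finset ℕ, #S = Ctot l J k ∧
      (∀ a ∈ S, 1 ≤ a) ∧ ∀ q ∈ prs Set.univ I, ((∑ a ∈ S, 2 ^ a : ℕ) : ZMod q) =
        4 * ∑ t : Fin (J + 1), (coef l M t : ZMod q) * SS q (b t) := by
    intro b
    obtain ⟨L, hL1, hL2⟩ := exists_list l M (B := M)
      (fun (t : Fin (J + 1)) (m : Fin k) => (⟨(b t m).val, ZMod.val_lt _⟩ : Fin M))
    obtain ⟨S, hS1, hS2, hS3⟩ := distinct L M hMpos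
    refine ⟨S, hS1.trans hL1, hS2, fun q hq => ?_⟩
    rw [hS3 q (hq1 q hq), hL2, sB]
    push_cast
    rfl
  choose S hS1 hS2 hS3 using hS
  obtain ⟨B, hB⟩ : ∃ B : ℕ, ∀ b, ∑ a ∈ S b, 2 ^ a ≤ B :=
    ⟨univ.sup fun b => ∑ a ∈ S b, 2 ^ a, fun b => le_sup (f := fun b => ∑ a ∈ S b, 2 ^ a)
      (mem_univ b)⟩
  set T : ℝ := ((M : ℝ) ^ k) ^ (J + 1) with hT
  have hT0 : 0 < T := by positivity
  have hcard : (Fintype.card (Fin (J + 1) → Fin k → ZMod M) : ℝ) = T := by
    simp [hT, ZMod.card]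
  -- the good vectors
  set G : ℕ → Finset (Fin (J + 1) → Fin k → ZMod M) := fun n =>
    univ.filter (fun b => ∀ q ∈ prs Set.univ I, ∑ t : Fin (J + 1), (coef l M t : ZMod q) *
      SS q (b t) ≠ (n : ZMod q) * (4 : ZMod q)⁻¹) with hG
  have hGcard : ∀ n, δ * T ≤ #(G n) := by
    intro n
    have h := hcov I hI1 M hM (fun q => (n : ZMod q) * (4 : ZMod q)⁻¹)
    rw [mul_pow] at h
    exact h
  -- the large squares
  have hkey : ∀ n, B < n → Odd n → ¬ Rep (Ctot l J k) y n → ∀ b ∈ G n,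
      ∃ p, Z I < p ∧ p * p ∣ n - ∑ a ∈ S b, 2 ^ a := by
    intro n hn hodd hrep b hb
    by_contra hno
    push Not at hno
    apply hrep
    have hle : ∑ a ∈ S b, 2 ^ a ≤ n := (hB b).trans hn.le
    have hprime : ∀ p : ℕ, p.Prime → p ∣ n - ∑ a ∈ S b, 2 ^ a → Z I < p := by
      intro p hp hdvd
      by_contra hpI
      push Not at hpI
      by_cases hp2 : p = 2
      · subst hp2
        have h1 : 2 ∣ ∑ a ∈ S b, 2 ^ a := dvd_sum fun a ha =>
          dvd_pow_self 2 (by have := hS2 b a ha; omega)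
        have h2 : 2 ∣ n := (Nat.dvd_sub_iff_left hle h1).1 hdvd
        exact (Nat.not_even_iff_odd.2 hodd) (even_iff_two_dvd.2 h2)
      · have hmem : p ∈ prs Set.univ I := mem_prs.2 ⟨⟨hp.one_lt, hpI⟩, ⟨hp, hp2⟩, trivial⟩
        have h1 := (mem_filter.1 hb).2 p hmem
        have : Fact p.Prime := ⟨hp⟩
        have h3 : ((n - ∑ a ∈ S b, 2 ^ a : ℕ) : ZMod p) = 0 := (ZMod.natCast_eq_zero_iff _ _).2 hdvd
        rw [Nat.cast_sub hle, hS3 b p hmem] at h3
        apply h1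
        have h4 : (4 : ZMod p) ≠ 0 := by
          have h5 : ((4 : ℕ) : ZMod p) ≠ 0 := by
            rw [Ne, ZMod.natCast_eq_zero_iff]
            intro h6
            have h7 : p ∣ 2 ^ 2 := by simpa using h6
            exact hp2 ((Nat.prime_dvd_prime_iff_eq hp Nat.prime_two).1 (hp.dvd_of_dvd_pow h7))
          exact_mod_cast h5
        rw [eq_mul_inv_iff_mul_eq₀ h4, mul_comm]
        exact (sub_eq_zero.1 h3).symm
    refine ⟨n - ∑ a ∈ S b, 2 ^ a, S b, ?_, fun p hp hd => hIy.trans_lt (hprime p hp hd), hS1 b,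
      by omega⟩
    rw [Nat.squarefree_iff_prime_squarefree]
    intro p hp hpp
    exact hno p (hprime p hp ((dvd_mul_right p p).trans hpp)) hpp
  -- the double counting
  have hcount : ∀ X : ℕ, δ * (#{n ∈ Icc 1 X | Odd n ∧ ¬ Rep (Ctot l J k) y n} : ℝ) ≤
      X / (Z I) + δ * B := by
    intro X
    have hsub : {n ∈ Icc 1 X | Odd n ∧ ¬ Rep (Ctot l J k) y n} ⊆
        Icc 1 B ∪ {n ∈ Ioc B X | Odd n ∧ ¬ Rep (Ctot l J k) y n} := by
      intro n hn
      rw [mem_filter, mem_Icc] at hn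
      rw [mem_union, mem_Icc, mem_filter, mem_Ioc]
      by_cases h : n ≤ B
      · exact Or.inl ⟨hn.1.1, h⟩
      · exact Or.inr ⟨⟨by omega, hn.1.2⟩, hn.2⟩
    set Bad := {n ∈ Ioc B X | Odd n ∧ ¬ Rep (Ctot l J k) y n} with hBad
    have h1 : (#{n ∈ Icc 1 X | Odd n ∧ ¬ Rep (Ctot l J k) y n} : ℝ) ≤ B + #Bad := by
      have h2 := (card_le_card hsub).trans (card_union_le _ _)
      rw [Nat.card_Icc, Nat.add_sub_cancel] at h2
      exact_mod_cast h2
    have h2 : δ * T * (#Bad : ℝ) ≤ T * (X / (Z I)) := by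
      have e1 : δ * T * (#Bad : ℝ) ≤ ∑ n ∈ Bad, (#(G n) : ℝ) := by
        calc δ * T * (#Bad : ℝ) = ∑ _n ∈ Bad, δ * T := by rw [sum_const, nsmul_eq_mul]; ring
          _ ≤ _ := sum_le_sum fun n _ => hGcard n
      have e2 : ∑ n ∈ Bad, #(G n) ≤ ∑ b : Fin (J + 1) → Fin k → ZMod M, ∑ p ∈ Ioc (Z I) X,
          #{n ∈ Ioc B X | p * p ∣ n - ∑ a ∈ S b, 2 ^ a} := by
        calc ∑ n ∈ Bad, #(G n) = ∑ b : Fin (J + 1) → Fin k → ZMod M, #{n ∈ Bad | b ∈ G n} := by
              have g1 : ∀ n ∈ Bad, #(G n) = ∑ b : Fin (J + 1) → Fin k → ZMod M,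
                  if b ∈ G n then 1 else 0 := fun n _ => by
                rw [← sum_filter, sum_const, smul_eq_mul, mul_one, filter_mem_eq_inter,
                  univ_inter]
              rw [sum_congr rfl g1, sum_comm]
              refine sum_congr rfl fun b _ => ?_
              rw [← sum_filter, sum_const, smul_eq_mul, mul_one]
          _ ≤ _ := sum_le_sum fun b _ => ?_
        have e3 : {n ∈ Bad | b ∈ G n} ⊆ (Ioc (Z I) X).biUnion fun p =>
            {n ∈ Ioc B X | p * p ∣ n - ∑ a ∈ S b, 2 ^ a} := by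
          intro n hn
          rw [mem_filter] at hn
          have hn1 := (mem_filter.1 hn.1)
          have hn2 := mem_Ioc.1 hn1.1
          obtain ⟨p, hp1, hp2⟩ := hkey n hn2.1 hn1.2.1 hn1.2.2 b hn.2
          have hlt : ∑ a ∈ S b, 2 ^ a < n := (hB b).trans_lt hn2.1
          have hple : p * p ≤ n - ∑ a ∈ S b, 2 ^ a := Nat.le_of_dvd (by omega) hp2
          have hpX : p ≤ X := by
            have : p ≤ p * p := Nat.le_mul_self p
            omega
          rw [mem_biUnion]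
          exact ⟨p, mem_Ioc.2 ⟨hp1, hpX⟩, mem_filter.2 ⟨hn1.1, hp2⟩⟩
        exact (card_le_card e3).trans card_biUnion_le
      have e4 : ∀ b : Fin (J + 1) → Fin k → ZMod M, ∀ p ∈ Ioc (Z I) X,
          (#{n ∈ Ioc B X | p * p ∣ n - ∑ a ∈ S b, 2 ^ a} : ℝ) ≤ X * (1 / (p : ℝ) ^ 2) := by
        intro b p hp
        have hp0 : 0 < p := (Nat.zero_le _).trans_lt (mem_Ioc.1 hp).1
        have f1 : #{n ∈ Ioc B X | p * p ∣ n - ∑ a ∈ S b, 2 ^ a} ≤
            #{n ∈ Ioc 0 X | p * p ∣ n} := by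
          refine card_le_card_of_injOn (fun n => n - ∑ a ∈ S b, 2 ^ a) ?_ ?_
          · intro n hn
            rw [mem_coe, mem_filter, mem_Ioc] at hn ⊢
            have := hB b
            refine ⟨?_, hn.2⟩
            change 0 < n - ∑ a ∈ S b, 2 ^ a ∧ n - ∑ a ∈ S b, 2 ^ a ≤ X
            omega
          · intro n hn m hm hnm
            rw [mem_coe, mem_filter, mem_Ioc] at hn hm
            have := hB b
            simp only at hnm
            omega
        rw [Nat.Ioc_filter_dvd_card_eq_div] at f1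
        have f2 : ((X / (p * p) : ℕ) : ℝ) ≤ (X : ℝ) / ((p * p : ℕ) : ℝ) := Nat.cast_div_le
        have f3 : (X : ℝ) / ((p * p : ℕ) : ℝ) = X * (1 / (p : ℝ) ^ 2) := by
          push_cast
          ring
        rw [← f3]
        exact le_trans (by exact_mod_cast f1) f2
      calc δ * T * (#Bad : ℝ) ≤ ∑ n ∈ Bad, (#(G n) : ℝ) := e1
        _ ≤ ∑ b : Fin (J + 1) → Fin k → ZMod M, ∑ p ∈ Ioc (Z I) X,
          (#{n ∈ Ioc B X | p * p ∣ n - ∑ a ∈ S b, 2 ^ a} : ℝ) := by exact_mod_cast e2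
        _ ≤ ∑ b : Fin (J + 1) → Fin k → ZMod M, X * (1 / (Z I : ℝ)) := by
            refine sum_le_sum fun b _ => (sum_le_sum (e4 b)).trans ?_
            rw [← mul_sum]
            exact mul_le_mul_of_nonneg_left (sum_inv_sq _ _ hZ0) (by positivity)
        _ = T * (X / (Z I)) := by
            rw [sum_const, card_univ, nsmul_eq_mul, hcard]
            ring
    have h3 : δ * (#Bad : ℝ) ≤ X / (Z I) := by
      have : T * (δ * (#Bad : ℝ)) ≤ T * (X / (Z I)) := by linarith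
      exact le_of_mul_le_mul_left this hT0
    have h4 := mul_le_mul_of_nonneg_left h1 hδ0.le
    linarith
  obtain ⟨X₀, hX₀⟩ := exists_nat_ge (2 * (B : ℝ) / ε)
  filter_upwards [eventually_ge_atTop X₀] with X hX
  have h1 := hcount X
  have h2 : 2 * (B : ℝ) / ε ≤ X := hX₀.trans (by exact_mod_cast hX)
  rw [div_le_iff₀ hε] at h2
  have h3 : (#{n ∈ Icc 1 X | Odd n ∧ ¬ Rep (Ctot l J k) y n} : ℝ) ≤ X / (Z I) / δ + B := by
    rw [← sub_le_iff_le_add, le_div_iff₀ hδ0]
    linarith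
  have h4 : (X : ℝ) / (Z I) / δ ≤ ε / 2 * X := by
    have h5 : (X : ℝ) / (Z I) / δ = 1 / (δ * (Z I : ℝ)) * X := by
      field_simp
    rw [h5]
    exact mul_le_mul_of_nonneg_right hI (by positivity)
  linarith

end Pool.Agent.SqfPow
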